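import Mathlib

/-!
# The Vandermonde determinant of the roots of a polynomial
-/

set_option autoImplicit false

namespace Pool.Agent.K1H14.HD

open Finset Matrix

section esymm

variable {R : Type*} [CommRing R] {r : ℕ} (z : Fin r → R)

/-- The elementary symmetric functions of `z`. -/
noncomputable def es (j : ℕ) : R := (univ.val.map z : Multiset R).esymm j

lemma es_eq (j : ℕ) : es z j = MvPolynomial.aeval z (MvPolynomial.esymm (Fin r) ℤ j) :=
  (MvPolynomial.aeval_esymm_eq_multiset_esymm _ _ _ _).symm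

lemma es_zero : es z 0 = 1 := by
  rw [es_eq, MvPolynomial.esymm_zero, map_one]

lemma es_top {j : ℕ} (hj : r < j) : es z j = 0 := by
  rw [es, Multiset.esymm, Multiset.powersetCard_eq_empty]
  · simp
  · simpa using hj

lemma newton_es (k : ℕ) : (k : R) * es z k = (-1) ^ (k + 1) *
    ∑ a ∈ antidiagonal k with a.1 < k, (-1) ^ a.1 * es z a.1 * ∑ i, z i ^ a.2 := by
  have h := congrArg (MvPolynomial.aeval z) (MvPolynomial.mul_esymm_eq_sum (Fin r) ℤ k)
  simp only [map_mul, map_natCast, map_sum, map_pow, map_neg, map_one, ← es_eq] at h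
  rw [h]
  congr 1
  apply Finset.sum_congr rfl
  intro a _
  congr 1
  rw [MvPolynomial.psum, map_sum]
  simp only [map_pow, MvPolynomial.aeval_X]

lemma sum_es (i : Fin r) : ∑ j ∈ range (r + 1), (-1) ^ j * es z j * z i ^ (r - j) = 0 := by
  have h := congrArg (Polynomial.eval (z i)) (Multiset.prod_X_sub_X_eq_sum_esymm (univ.val.map z))
  have hc : Multiset.card (univ.val.map z) = r := by simp
  rw [hc, Polynomial.eval_finsetSum] at h
  have h0 : Polynomial.eval (z i) (((univ.val.map z).map fun t => Polynomial.X -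
      Polynomial.C t).prod) = 0 := by
    rw [Polynomial.eval_multiset_prod, Multiset.map_map, Multiset.map_map]
    apply Multiset.prod_eq_zero
    rw [Multiset.mem_map]
    exact ⟨i, Finset.mem_univ_val i, by simp⟩
  rw [h0] at h
  rw [h]
  apply Finset.sum_congr rfl
  intro j _
  simp [es, mul_assoc]

/-- The coefficients of a monic polynomial with the roots `z` agree with those of the product of
the `T - z i` up to elements which are annihilated by the Vandermonde determinant. -/
theorem det_mul_coeff {c : ℕ → R} (h0 : c 0 = 1)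
    (h : ∀ i, ∑ j ∈ range (r + 1), c j * z i ^ (r - j) = 0) {j : ℕ} (hj : j ≤ r) :
    (vandermonde z).det * c j = (vandermonde z).det * ((-1) ^ j * es z j) := by
  let d : ℕ → R := fun j => c j - (-1) ^ j * es z j
  have hd0 : d 0 = 0 := by simp only [d]; rw [h0, es_zero]; simp
  have hd : ∀ i, ∑ j ∈ range (r + 1), d j * z i ^ (r - j) = 0 := by
    intro i
    simp only [d, sub_mul, Finset.sum_sub_distrib]
    rw [h i, sum_es, sub_zero]
  rcases Nat.eq_zero_or_pos j with rfl | hj0
  · rw [h0, es_zero, pow_zero, one_mul]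
  let w : Fin r → R := fun l => d (r - l)
  have hV : vandermonde z *ᵥ w = 0 := by
    funext i
    rw [mulVec, dotProduct, Pi.zero_apply, ← hd i, Finset.sum_range_succ', hd0, zero_mul,
      add_zero, ← Finset.sum_range_reflect, Finset.sum_range]
    apply Finset.sum_congr rfl
    intro l _
    have hl := l.isLt
    have e1 : r - 1 - (l : ℕ) + 1 = r - l := by omega
    have e2 : r - (r - (l : ℕ)) = l := by omega
    simp only [w, vandermonde_apply]
    rw [e1, e2, mul_comm]
  have h1 : (vandermonde z).det • w = 0 := by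
    have h2 := congrArg (fun v => (vandermonde z).adjugate *ᵥ v) hV
    simp only [mulVec_mulVec, adjugate_mul, mulVec_zero, smul_mulVec, one_mulVec] at h2
    exact h2
  have h2 := congrFun h1 ⟨r - j, by omega⟩
  have e3 : r - (r - j) = j := by omega
  simp only [Pi.smul_apply, smul_eq_mul, w, d, Pi.zero_apply, e3, mul_sub] at h2
  exact sub_eq_zero.1 h2

/-- The power sums of the roots, in the first nonzero degree. -/
theorem det_mul_psum {c : ℕ → R} (h0 : c 0 = 1)
    (h : ∀ i, ∑ j ∈ range (r + 1), c j * z i ^ (r - j) = 0) (htop : ∀ j, r < j → c j = 0) {n : ℕ}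
    (hn : 1 ≤ n) (hz : ∀ j, 1 ≤ j → j < n → c j = 0) :
    (vandermonde z).det * ∑ i, z i ^ n = -(n : R) * ((vandermonde z).det * c n) := by
  have hall : ∀ j, (vandermonde z).det * c j = (vandermonde z).det * ((-1) ^ j * es z j) := by
    intro j
    rcases le_or_gt j r with hj | hj
    · exact det_mul_coeff z h0 h hj
    · rw [htop j hj, es_top z hj, mul_zero, mul_zero, mul_zero]
  have h1 := newton_es z n
  have h2 : (vandermonde z).det * ∑ a ∈ antidiagonal n with a.1 < n,
      (-1) ^ a.1 * es z a.1 * ∑ i, z i ^ a.2 = (vandermonde z).det * ∑ i, z i ^ n := by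
    rw [Finset.mul_sum, Finset.sum_eq_single (0, n)]
    · rw [es_zero]; simp
    · rintro ⟨a, b⟩ hab hne
      rw [Finset.mem_filter, HasAntidiagonal.mem_antidiagonal] at hab
      dsimp only at hab ⊢
      have ha : 1 ≤ a := by
        rcases Nat.eq_zero_or_pos a with h3 | h3
        · exfalso
          apply hne
          rw [Prod.mk.injEq]
          omega
        · exact h3
      have h3 := hall a
      rw [hz a ha hab.2, mul_zero] at h3
      rw [← mul_assoc, ← h3, zero_mul]
    · intro h3
      exfalso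
      apply h3
      rw [Finset.mem_filter, HasAntidiagonal.mem_antidiagonal]
      exact ⟨zero_add n, hn⟩
  have h3 := congrArg (fun x => (vandermonde z).det * x) h1
  have h4 : (vandermonde z).det * ((-1) ^ (n + 1) * ∑ a ∈ antidiagonal n with a.1 < n,
      (-1) ^ a.1 * es z a.1 * ∑ i, z i ^ a.2) =
      (-1) ^ (n + 1) * ((vandermonde z).det * ∑ i, z i ^ n) := by rw [← h2]; ring
  rw [h4] at h3
  have h5 := hall n
  have e : ((-1 : R) ^ n) * (-1) ^ n = 1 := by rw [← mul_pow]; simp
  have h6 : (vandermonde z).det * ∑ i, z i ^ n =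
      (-1) ^ (n + 1) * ((vandermonde z).det * ((n : R) * es z n)) := by
    rw [h3, ← mul_assoc, pow_succ, mul_neg_one, neg_mul_neg, e, one_mul]
  rw [h6, h5, pow_succ]
  ring

end esymm

section square

variable {R : Type*} [CommRing R] [Algebra ℚ R] {r : ℕ} (z : Fin r → R)

lemma det_vandermonde_perm : (vandermonde z).det =
    ∑ σ : Equiv.Perm (Fin r), ((Equiv.Perm.sign σ : ℤ) : ℚ) • ∏ i, z i ^ (σ i : ℕ) := by
  rw [← det_transpose, det_apply']
  apply Finset.sum_congr rfl
  intro σ _
  rw [Algebra.smul_def]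
  congr 1
  simp

lemma sign_rev : ((Equiv.Perm.sign (Fin.revPerm : Equiv.Perm (Fin r)) : ℤ) : ℚ) =
    (-1) ^ (r * (r - 1) / 2) := by
  have h : Equiv.Perm.sign (Fin.revPerm : Equiv.Perm (Fin r)) = (-1) ^ (r * (r - 1) / 2) := by
    rw [Equiv.Perm.sign_eq_prod_prod_Ioi]
    have h1 : ∀ i : Fin r, ∏ j ∈ Finset.Ioi i, (if Fin.revPerm i < Fin.revPerm j then (1 : ℤˣ)
        else -1) = (-1) ^ (r - 1 - (i : ℕ)) := by
      intro i
      rw [← Fin.card_Ioi, ← Finset.prod_const]
      apply Finset.prod_congr rfl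
      intro j hj
      rw [Finset.mem_Ioi] at hj
      rw [if_neg]
      rw [Fin.revPerm_apply, Fin.revPerm_apply, Fin.rev_lt_rev]
      exact hj.le.not_gt
    rw [Finset.prod_congr rfl fun i _ => h1 i, Finset.prod_pow_eq_pow_sum]
    congr 1
    rw [Fin.sum_univ_eq_sum_range (fun i => r - 1 - i) r, Finset.sum_range_reflect (fun i => i) r,
      Finset.sum_range_id]
  rw [h]
  push_cast
  rfl

/-- The square of the Vandermonde determinant under a map with the formal properties of the
push-forward along a fibre power of a projective bundle. -/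
theorem square {S : Type*} [CommRing S] [Algebra ℚ S] (Φ : R →ₗ[ℚ] S) (a : S) (h : ℕ → S)
    (h1 : ∀ n, n + 1 < r → h n = 0) (h2 : h (r - 1) = 1)
    (hΦ : ∀ α : Fin r → ℕ, Φ (∏ i, z i ^ α i) = a * ∏ i, h (α i)) :
    Φ ((vandermonde z).det * (vandermonde z).det) =
      ((-1) ^ (r * (r - 1) / 2) * (r.factorial : ℚ)) • a := by
  have key : ∀ σ : Equiv.Perm (Fin r), ∑ τ : Equiv.Perm (Fin r),
      (((Equiv.Perm.sign σ : ℤ) : ℚ) * ((Equiv.Perm.sign τ : ℤ) : ℚ)) •
        (a * ∏ i, h ((σ i : ℕ) + (τ i : ℕ))) =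
      ((Equiv.Perm.sign (Fin.revPerm : Equiv.Perm (Fin r)) : ℤ) : ℚ) • a := by
    intro σ
    rw [Finset.sum_eq_single (Fin.revPerm * σ)]
    · have e1 : ∀ i : Fin r, (σ i : ℕ) + ((Fin.revPerm * σ : Equiv.Perm (Fin r)) i : ℕ) = r - 1 := by
        intro i
        have h3 := (σ i).isLt
        change (σ i : ℕ) + (Fin.rev (σ i) : ℕ) = r - 1
        rw [Fin.val_rev]
        omega
      simp only [e1, h2, Finset.prod_const_one, mul_one]
      congr 1
      rw [Equiv.Perm.sign_mul]
      push_cast
      have h4 : ((Equiv.Perm.sign σ : ℤ) : ℚ) * ((Equiv.Perm.sign σ : ℤ) : ℚ) = 1 := by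
        rw [← Int.cast_mul, ← Units.val_mul, Int.units_mul_self]
        simp
      linear_combination ((Equiv.Perm.sign (Fin.revPerm : Equiv.Perm (Fin r)) : ℤ) : ℚ) * h4
    · intro τ _ hτ
      have h3 : ∃ i, (σ i : ℕ) + (τ i : ℕ) + 1 < r := by
        by_contra hcon
        push Not at hcon
        apply hτ
        have h4 : ∑ i, ((σ i : ℕ) + (τ i : ℕ)) = ∑ i : Fin r, (r - 1) := by
          have e1 : ∑ i, (σ i : ℕ) = ∑ i : Fin r, (i : ℕ) := Equiv.sum_comp σ (fun i => (i : ℕ))
          have e2 : ∑ i, (τ i : ℕ) = ∑ i : Fin r, (i : ℕ) := Equiv.sum_comp τ (fun i => (i : ℕ))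
          have e3 : ∑ i : Fin r, (i : ℕ) = ∑ i : Fin r, (r - 1 - (i : ℕ)) := by
            rw [Fin.sum_univ_eq_sum_range (fun i => r - 1 - i) r,
              Finset.sum_range_reflect (fun i => i) r, Fin.sum_univ_eq_sum_range (fun i => i) r]
          rw [Finset.sum_add_distrib, e1, e2]
          nth_rewrite 2 [e3]
          rw [← Finset.sum_add_distrib]
          apply Finset.sum_congr rfl
          intro i _
          have := i.isLt
          omega
        have h5 := (Finset.sum_eq_sum_iff_of_le (s := Finset.univ)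
          (f := fun _ : Fin r => r - 1) (g := fun i => (σ i : ℕ) + (τ i : ℕ))
          (fun i _ => by have := hcon i; omega)).1 h4.symm
        ext i
        have h6 := h5 i (Finset.mem_univ i)
        have h7 : ((Fin.revPerm * σ : Equiv.Perm (Fin r)) i : ℕ) = r - ((σ i : ℕ) + 1) := by
          change (Fin.rev (σ i) : ℕ) = _
          rw [Fin.val_rev]
        omega
      obtain ⟨i, hi⟩ := h3
      rw [Finset.prod_eq_zero (Finset.mem_univ i) (h1 _ hi), mul_zero, smul_zero]
    · intro h3
      exact absurd (Finset.mem_univ _) h3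
  rw [det_vandermonde_perm, Finset.sum_mul_sum, map_sum]
  have h3 : ∀ σ : Equiv.Perm (Fin r), Φ (∑ τ : Equiv.Perm (Fin r),
      (((Equiv.Perm.sign σ : ℤ) : ℚ) • ∏ i, z i ^ (σ i : ℕ)) *
        (((Equiv.Perm.sign τ : ℤ) : ℚ) • ∏ i, z i ^ (τ i : ℕ))) =
      ((Equiv.Perm.sign (Fin.revPerm : Equiv.Perm (Fin r)) : ℤ) : ℚ) • a := by
    intro σ
    rw [← key σ, map_sum]
    apply Finset.sum_congr rfl
    intro τ _
    rw [smul_mul_smul_comm, map_smul, ← Finset.prod_mul_distrib]
    simp only [← pow_add]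
    rw [hΦ]
  rw [Finset.sum_congr rfl fun σ _ => h3 σ, Finset.sum_const, Finset.card_univ,
    Fintype.card_perm, Fintype.card_fin, sign_rev, ← Nat.cast_smul_eq_nsmul ℚ, smul_smul, mul_comm]

end square

end Pool.Agent.K1H14.HD
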