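import Pool.Agent.K1H14.HD.Vand

/-!
# Vector bundles with a prescribed first nonzero Chern class
-/

set_option autoImplicit false

open CategoryTheory AlgebraicGeometry

universe u v w t

namespace Pool.Agent.K1H14.HD

open Pool.Agent.H914 Pool.Agent.H914.VarClass Pool.Agent.H914.VarClass.Obj Pool.Agent.W492.BB
  Pool.Agent.W550.Corr Pool.Agent.TH133 Pool.Agent.TH829.Prime Pool.Agent.TH829.Kim
  Pool.Agent.K1H14.LD Pool.Agent.K1H14.VD

set_option linter.unusedSectionVars false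

variable {k : Type u} [Field k] {𝒱 : VarClass k} {C : TheoryData.{u, v, 0} 𝒱 ℚ}
  [hC : IsChowProj C] {B : BundleData.{u, v, t} C} [hB : IsBundles B] {X Y : 𝒱.Obj}

include hC hB

/-- A bundle with vanishing `ch_n`, `1 ≤ n < i`, and `ch_i` a multiple of a given class. -/
lemma exists_ch {i : ℕ} (hi : 1 ≤ i) {a : C.A X} (ha : C.Deg i a) :
    ∃ (G : B.Bun X) (N : ℕ), N ≠ 0 ∧ (∀ n, 1 ≤ n → n < i → B.ch G n = 0) ∧
      B.ch G i = (N : ℚ) • a := by
  obtain ⟨E, F, N, hN, hE⟩ := hB.hasOperations.generate i a ha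
  obtain ⟨L, Q, M, hL, hQ⟩ := hB.hasOperations.exists_kernel F
  obtain ⟨G₁, hG₁⟩ := hB.hasOperations.exists_sum E Q
  obtain ⟨G, hG⟩ := hB.hasOperations.exists_twist G₁ L hL
  have hL0 : B.ch L 0 = 1 := by rw [hB.hasChernClasses.ch_zero, hL, Nat.cast_one, one_smul]
  have key : ∀ n, ∑ j ∈ Finset.range (n + 1), B.ch G j * B.ch L (n - j) =
      (M : ℚ) • B.ch L n + if n = i then (N : ℚ) • a else 0 := by
    intro n
    have h1 := hG n
    rw [hG₁, hE] at h1
    rw [← hQ]
    have h2 : ∑ j ∈ Finset.range (n + 1), B.ch G j * B.ch L (n - j) =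
        ∑ j ∈ Finset.range (n + 1), C.mul (B.ch G j) (B.ch L (n - j)) := rfl
    rw [h2, ← h1]
    abel
  have hG0 : B.ch G 0 = (M : ℚ) • 1 := by
    have h1 := key 0
    rw [Finset.sum_range_one, Nat.sub_zero, hL0, mul_one, if_neg (by omega), add_zero] at h1
    exact h1
  have key2 : ∀ n, ∑ j ∈ Finset.range (n + 1), B.ch G (j + 1) * B.ch L (n - j) =
      if n + 1 = i then (N : ℚ) • a else 0 := by
    intro n
    have h1 := key (n + 1)
    rw [Finset.sum_range_succ', hG0, smul_mul_assoc, one_mul, Nat.sub_zero, add_comm] at h1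
    have h2 := add_left_cancel h1
    rw [← h2]
    refine Finset.sum_congr rfl fun j hj => ?_
    rw [Nat.add_sub_add_right]
  have hlow : ∀ n, 1 ≤ n → n < i → B.ch G n = 0 := by
    intro n hn hni
    induction n using Nat.strong_induction_on with
    | _ n ih =>
      obtain ⟨m, rfl⟩ : ∃ m, n = m + 1 := ⟨n - 1, by omega⟩
      have h1 := key2 m
      rw [Finset.sum_range_succ, Nat.sub_self, hL0, mul_one, if_neg (by omega),
        Finset.sum_eq_zero, zero_add] at h1
      · exact h1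
      · intro j hj
        rw [Finset.mem_range] at hj
        rw [ih (j + 1) (by omega) (by omega) (by omega), zero_mul]
  refine ⟨G, N, hN, hlow, ?_⟩
  obtain ⟨m, rfl⟩ : ∃ m, i = m + 1 := ⟨i - 1, by omega⟩
  have h1 := key2 m
  rw [Finset.sum_range_succ, Nat.sub_self, hL0, mul_one, if_pos rfl, Finset.sum_eq_zero,
    zero_add] at h1
  · exact h1
  · intro j hj
    rw [Finset.mem_range] at hj
    rw [hlow (j + 1) (by omega) (by omega), zero_mul]

/-- The first nonzero Chern class. -/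
lemma chern_first (G : B.Bun X) {n : ℕ} (hn : 1 ≤ n) (h : ∀ l, 1 ≤ l → l < n → B.ch G l = 0) :
    B.chern G n = (-((-1) ^ n * n : ℚ)⁻¹ * (n.factorial : ℚ)) • B.ch G n := by
  have h1 := hB.hasChernClasses.newton G n hn
  obtain ⟨m, rfl⟩ : ∃ m, n = m + 1 := ⟨n - 1, by omega⟩
  rw [Finset.sum_range_succ', hB.hasChernClasses.chern_zero, pow_zero, one_mul, Nat.sub_zero,
    TheoryData.mul, one_mul, Finset.sum_eq_zero, zero_add] at h1
  · have h3 : ((-1) ^ (m + 1) * (m + 1 : ℕ) : ℚ) ≠ 0 := by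
      refine mul_ne_zero (pow_ne_zero _ (by norm_num)) ?_
      exact_mod_cast (by omega : m + 1 ≠ 0)
    have h4 := congrArg (fun y => ((-1) ^ (m + 1) * (m + 1 : ℕ) : ℚ)⁻¹ • y)
      (eq_neg_of_add_eq_zero_right h1)
    simp only [smul_smul, inv_mul_cancel₀ h3, one_smul, smul_neg] at h4
    rw [h4, neg_mul, neg_smul]
  · intro j hj
    rw [Finset.mem_range] at hj
    rw [TheoryData.mul, h (m + 1 - (j + 1)) (by omega) (by omega), mul_zero, smul_zero]

/-- A bundle whose first nonzero Chern class is a multiple of a given class. -/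
lemma exists_chern {i : ℕ} (hi : 1 ≤ i) {a : C.A X} (ha : C.Deg i a) :
    ∃ (G : B.Bun X) (κ : ℚ), κ ≠ 0 ∧ (∀ n, 1 ≤ n → n < i → B.chern G n = 0) ∧
      B.chern G i = κ • a := by
  obtain ⟨G, N, hN, h1, h2⟩ := exists_ch (B := B) hi ha
  refine ⟨G, (-((-1) ^ i * i : ℚ)⁻¹ * (i.factorial : ℚ)) * N, ?_, ?_, ?_⟩
  · refine mul_ne_zero (mul_ne_zero (neg_ne_zero.2 (inv_ne_zero (mul_ne_zero
      (pow_ne_zero _ (by norm_num)) ?_))) ?_) (by exact_mod_cast hN)
    · exact_mod_cast (by omega : i ≠ 0)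
    · exact_mod_cast Nat.factorial_ne_zero i
  · intro n hn hni
    rw [chern_first G hn fun l hl hln => h1 l hl (by omega), h1 n hn hni, smul_zero]
  · rw [chern_first G hi h1, h2, smul_smul]

lemma rk_eq (h1 : (1 : C.A X) ≠ 0) (T : B.Bun X) (m : ℕ) (h : B.ch T 0 = (m : ℚ) • (1 : C.A X)) :
    B.rk T = m := by
  rw [hB.hasChernClasses.ch_zero] at h
  have h2 : ((B.rk T : ℚ) - m) • (1 : C.A X) = 0 := by rw [sub_smul, h, sub_self]
  have h3 := (smul_eq_zero.1 h2).resolve_right h1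
  exact_mod_cast sub_eq_zero.1 h3

/-- The trivial line bundle. -/
lemma exists_trivial_one (h1 : (1 : C.A X) ≠ 0) :
    ∃ T : B.Bun X, B.rk T = 1 ∧ ∀ n, 1 ≤ n → B.ch T n = 0 := by
  obtain ⟨E, -, -, -, -⟩ := hB.hasOperations.generate (X := X) 0 0 (Submodule.zero_mem _)
  obtain ⟨L, -, -, hL, -⟩ := hB.hasOperations.exists_kernel E
  obtain ⟨G, hG⟩ := hB.hasOperations.exists_twist L L hL
  have hL0 : B.ch L 0 = 1 := by rw [hB.hasChernClasses.ch_zero, hL, Nat.cast_one, one_smul]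
  have hG0 : B.ch G 0 = 1 := by
    have h2 := hG 0
    rw [Finset.sum_range_one, Nat.sub_zero, TheoryData.mul, hL0, mul_one] at h2
    exact h2.symm
  refine ⟨G, rk_eq h1 G 1 (by rw [hG0, Nat.cast_one, one_smul]), ?_⟩
  intro n hn
  induction n using Nat.strong_induction_on with
  | _ n ih =>
    obtain ⟨m, rfl⟩ : ∃ m, n = m + 1 := ⟨n - 1, by omega⟩
    have h2 := hG (m + 1)
    have h3 : ∑ x ∈ Finset.range m, C.mul (B.ch G (x + 1)) (B.ch L (m + 1 - (x + 1))) = 0 := by
      apply Finset.sum_eq_zero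
      intro j hj
      rw [Finset.mem_range] at hj
      rw [TheoryData.mul, ih (j + 1) (by omega) (by omega), zero_mul]
    rw [Finset.sum_range_succ', Nat.sub_zero, hG0, TheoryData.mul, one_mul,
      Finset.sum_range_succ, h3, Nat.sub_self, hL0, zero_add, TheoryData.mul, mul_one] at h2
    exact right_eq_add.1 h2

/-- The trivial bundle of rank `e + 1`. -/
lemma exists_trivial (h1 : (1 : C.A X) ≠ 0) (e : ℕ) :
    ∃ T : B.Bun X, B.rk T = e + 1 ∧ ∀ n, 1 ≤ n → B.ch T n = 0 := by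
  induction e with
  | zero => exact exists_trivial_one h1
  | succ e ih =>
    obtain ⟨T, hT, hT'⟩ := ih
    obtain ⟨T₀, hT₀, hT₀'⟩ := exists_trivial_one (B := B) h1
    obtain ⟨G, hG⟩ := hB.hasOperations.exists_sum T T₀
    refine ⟨G, rk_eq h1 G (e + 1 + 1) ?_, fun n hn => ?_⟩
    · rw [hG, hB.hasChernClasses.ch_zero, hB.hasChernClasses.ch_zero, hT, hT₀, ← add_smul]
      push_cast
      rfl
    · rw [hG, hT' n hn, hT₀' n hn, add_zero]

/-- The power `ζ^(e+1)` on the projective bundle of a trivial bundle. -/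
lemma zeta_trivial {T : B.Bun X} {e : ℕ} (hT : B.rk T = e + 1) (h : ∀ n, 1 ≤ n → B.ch T n = 0) :
    B.zeta T ^ (e + 1) = 0 := by
  have hr : 1 ≤ B.rk T := by omega
  have h1 := hB.hasProjectiveBundles.relation T hr
  rw [Finset.sum_range_succ', hB.hasChernClasses.chern_zero, Nat.sub_zero, TheoryData.up, map_one,
    TheoryData.mul, one_mul, Finset.sum_eq_zero, zero_add, hT] at h1
  · exact h1
  · intro j _
    rw [chern_first T (by omega) fun l hl _ => h l hl, h (j + 1) (by omega), smul_zero,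
      TheoryData.mul, TheoryData.up, map_zero, zero_mul]

end Pool.Agent.K1H14.HD
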