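import Pool.Agent.K1H14.VD.Defs

/-!
# The standard conjecture of Hodge type and polynomials in divisor classes: definitions
-/

set_option autoImplicit false

open CategoryTheory AlgebraicGeometry

universe u v w t

namespace Pool.Agent.K1H14.HD

open Pool.Agent.H914 Pool.Agent.H914.VarClass Pool.Agent.H914.VarClass.Obj Pool.Agent.W492.BB
  Pool.Agent.W550.Corr Pool.Agent.TH133 Pool.Agent.TH829.Prime Pool.Agent.K1H14.VD

variable {k : Type u} [Field k] {𝒱 : VarClass k} {C : TheoryData.{u, v, 0} 𝒱 ℚ}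

/-- The data of the pull-backs of vector bundles: for a morphism `f : Y ⟶ X` and a vector bundle `E`
on `X` the vector bundle `f^* E` on `Y` and the morphism `ℙ(f^* E) ⟶ ℙ(E)` over `f`. -/
structure PullData (B : BundleData.{u, v, t} C) where
  /-- the vector bundle `f^* E` -/
  pull : ∀ {X Y : 𝒱.Obj}, (Y ⟶ X) → B.Bun X → B.Bun Y
  /-- the morphism `ℙ(f^* E) ⟶ ℙ(E)` -/
  map : ∀ {X Y : 𝒱.Obj} (f : Y ⟶ X) (E : B.Bun X), B.proj (pull f E) ⟶ B.proj E

/-- The formal properties of the pull-backs of vector bundles: `rk (f^* E) = rk E`,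
`c_j(f^* E) = f^* c_j(E)`, the square formed by `ℙ(f^* E)`, `ℙ(E)`, `Y`, `X` commutes, and the
pull-back of `ζ_E` to `ℙ(f^* E)` is `ζ_{f^* E}`. -/
class IsPull {B : BundleData.{u, v, t} C} (P : PullData B) : Prop where
  rk_pull : ∀ {X Y : 𝒱.Obj} (f : Y ⟶ X) (E : B.Bun X), B.rk (P.pull f E) = B.rk E
  chern_pull : ∀ {X Y : 𝒱.Obj} (f : Y ⟶ X) (E : B.Bun X) (j : ℕ),
    B.chern (P.pull f E) j = C.up f (B.chern E j)
  map_pr : ∀ {X Y : 𝒱.Obj} (f : Y ⟶ X) (E : B.Bun X),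
    P.map f E ≫ B.pr E = B.pr (P.pull f E) ≫ f
  zeta_pull : ∀ {X Y : 𝒱.Obj} (f : Y ⟶ X) (E : B.Bun X),
    C.up (P.map f E) (B.zeta E) = B.zeta (P.pull f E)

/-- The formal properties of the classes of ample divisors (`Amp X ξ`: `ξ ∈ CH^1(X)` is the class of
an ample divisor with rational coefficients):

* if `ξ` is ample on `X` and `E` is a vector bundle of rank `≥ 1` on `X`, then `ζ_E + t ξ` is ample on
  `ℙ(E)` for some `t ≥ 0`;
* if `f : Y ⟶ X` is a morphism, `E` a vector bundle of rank `≥ 1` on `X`, `η` ample on `Y` and `η'`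
  ample on `ℙ(E)`, then the sum of the pull-backs of `η` and `η'` is ample on
  `ℙ(f^* E) = Y ×_X ℙ(E) ⊆ Y × ℙ(E)`. -/
class IsAmple {B : BundleData.{u, v, t} C} (P : PullData B) (Amp : ∀ X : 𝒱.Obj, C.A X → Prop) :
    Prop where
  deg : ∀ {X : 𝒱.Obj} {ξ : C.A X}, Amp X ξ → C.Deg 1 ξ
  twist : ∀ {X : 𝒱.Obj} {ξ : C.A X} (E : B.Bun X), Amp X ξ → 1 ≤ B.rk E →
    ∃ t : ℕ, Amp (B.proj E) (B.zeta E + (t : ℚ) • C.up (B.pr E) ξ)
  fibre : ∀ {X Y : 𝒱.Obj} (f : Y ⟶ X) (E : B.Bun X) {η : C.A Y} {η' : C.A (B.proj E)},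
    1 ≤ B.rk E → Amp Y η → Amp (B.proj E) η' →
      Amp (B.proj (P.pull f E)) (C.up (B.pr (P.pull f E)) η + C.up (P.map f E) η')

variable {K : Type w} [Field K] (H : WeilTheoryData.{u, v, w} C K)

/-- The positivity of the standard conjecture of Hodge type for the class `x ∈ CH^j(X)` and the
polarization `ξ`: if `x` is not homologically trivial and primitive (`ξ^(n-2j+1) x = 0` in the
cohomology, where `n = dim X`), then `(-1)^j deg (ξ^(n-2j) x^2) > 0`. -/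
def HodgePositive {X : 𝒱.Obj} (ξ : C.A X) (j : ℕ) (x : C.A X) : Prop :=
  H.cl x ≠ 0 → H.cl (ξ ^ (X.dim - 2 * j + 1) * x) = 0 →
    ∃ q : ℚ, 0 < q ∧ HasDegree C ((-1 : ℚ) ^ j • (ξ ^ (X.dim - 2 * j) * (x * x))) q

/-- The standard conjecture of Hodge type for all varieties of the class `𝒱`. -/
def HodgeType (Amp : ∀ X : 𝒱.Obj, C.A X → Prop) : Prop :=
  ∀ (X : 𝒱.Obj) (ξ x : C.A X) (j : ℕ), Amp X ξ → 2 * j ≤ X.dim → C.Deg j x →
    HodgePositive H ξ j x

/-- The product of the differences `D_l - D_k` for `k < l`. -/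
noncomputable def vand {X : 𝒱.Obj} : ∀ {r : ℕ}, (Fin r → C.A X) → C.A X
  | 0, _ => 1
  | _ + 1, D => (List.ofFn fun k => D k.succ - D 0).prod * vand fun k => D k.succ

/-- The class `(D_1^i + ⋯ + D_r^i) ∏_{k < l} (D_l - D_k)`. -/
noncomputable def altClass {X : 𝒱.Obj} {r : ℕ} (D : Fin r → C.A X) (i : ℕ) : C.A X :=
  (∑ k, D k ^ i) * vand D

/-- The standard conjecture of Hodge type for the classes
`(D_1^i + ⋯ + D_r^i) ∏_{k < l} (D_l - D_k)`, with `r ≥ 1` divisor classes `D_k`, in the middle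
codimension `m = i + r (r - 1) / 2` of varieties of dimension `2 m`. -/
def HodgeTypeAlternating (Amp : ∀ X : 𝒱.Obj, C.A X → Prop) : Prop :=
  ∀ (X : 𝒱.Obj) (ξ : C.A X) (r i m : ℕ) (D : Fin r → C.A X), Amp X ξ → 1 ≤ r →
    (∀ k, C.Deg 1 (D k)) → m = i + r * (r - 1) / 2 → X.dim = 2 * m →
      HodgePositive H ξ m (altClass D i)

end Pool.Agent.K1H14.HD
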