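import Pool.Agent.K1H14.HD.Main

/-!
# The standard conjecture of Hodge type and alternating polynomials in divisor classes: the result
-/

set_option autoImplicit false

open CategoryTheory AlgebraicGeometry

universe u v w t

namespace Pool.Agent.K1H14.HD

open Pool.Agent.H914 Pool.Agent.H914.VarClass Pool.Agent.H914.VarClass.Obj Pool.Agent.W492.BB
  Pool.Agent.W550.Corr Pool.Agent.TH133 Pool.Agent.TH829.Prime Pool.Agent.TH829.Kim
  Pool.Agent.K1H14.LD Pool.Agent.K1H14.VD

set_option linter.unusedSectionVars false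

variable {k : Type u} [Field k] {𝒱 : VarClass k} {C : TheoryData.{u, v, 0} 𝒱 ℚ}
  [hC : IsChowProj C] {B : BundleData.{u, v, t} C} [hB : IsBundles B] {P : PullData B}
  [hP : IsPull P] {Amp : ∀ X : 𝒱.Obj, C.A X → Prop} [hA : IsAmple P Amp] {X Y : 𝒱.Obj}
  {K : Type w} [Field K] {H : WeilTheoryData.{u, v, w} C K} [hH : IsWeilProj H]

include hC hB

/-- Push-forwards of the geometric sum on the projective bundle of a trivial bundle. -/
lemma push_geom {T : B.Bun X} {e : ℕ} (hT : B.rk T = e + 1) (h : ∀ n, 1 ≤ n → B.ch T n = 0)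
    (y : C.A X) {i : ℕ} (hi : i ≤ e) :
    C.push (B.pr T) (B.zeta T ^ i * ∑ l ∈ Finset.range (e + 1),
      C.pull (B.pr T) y ^ l * B.zeta T ^ (e + 1 - 1 - l)) = y ^ i := by
  have hr : 1 ≤ B.rk T := by omega
  rw [Finset.mul_sum, map_sum, Finset.sum_eq_single i]
  · have e1 : B.zeta T ^ i * (C.pull (B.pr T) y ^ i * B.zeta T ^ (e + 1 - 1 - i)) =
        C.pull (B.pr T) (y ^ i) * B.zeta T ^ e := by
      have e2 : e + 1 - 1 - i = e - i := by omega
      rw [mul_left_comm, ← pow_add, e2, Nat.add_sub_cancel' hi, map_pow]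
    have e3 : C.push (B.pr T) (B.zeta T ^ e) = 1 := by
      have h1 := seg_self T hr
      rw [hT, Nat.add_sub_cancel] at h1
      exact h1
    rw [e1, C.proj_left, e3, mul_one]
  · intro l hl hne
    rw [Finset.mem_range] at hl
    have e1 : B.zeta T ^ i * (C.pull (B.pr T) y ^ l * B.zeta T ^ (e + 1 - 1 - l)) =
        C.pull (B.pr T) (y ^ l) * B.zeta T ^ (i + (e - l)) := by
      have e2 : e + 1 - 1 - l = e - l := by omega
      rw [mul_left_comm, ← pow_add, e2, map_pow]
    rw [e1, C.proj_left]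
    rcases lt_or_gt_of_ne hne with h1 | h1
    · -- `l < i`
      obtain ⟨j, hj⟩ : ∃ j, i + (e - l) = j + (e + 1) := ⟨i + (e - l) - (e + 1), by omega⟩
      rw [hj, pow_add, zeta_trivial hT h, mul_zero, map_zero, mul_zero]
    · have h2 : seg T (i + (e - l)) = 0 := seg_lt T hr (by rw [hT]; omega)
      rw [seg] at h2
      rw [h2, mul_zero]
  · intro h1
    exact absurd (Finset.mem_range.2 (by omega)) h1

include hP hA hH

/-- The reduction to the middle dimension. -/
theorem hodge_of_alternating (hAlt : HodgeTypeAlternating H Amp) : HodgeType H Amp := by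
  intro X ξ x j hξ hj hx
  obtain ⟨e, he⟩ : ∃ e, X.dim = 2 * j + e := ⟨X.dim - 2 * j, by omega⟩
  intro h0 hprim
  have e1 : X.dim - 2 * j + 1 = e + 1 := by omega
  have e2 : X.dim - 2 * j = e := by omega
  rw [e1] at hprim
  rw [e2]
  obtain ⟨T, hT, hT0⟩ := exists_trivial (B := B) (one_ne H X) e
  have hr : 1 ≤ B.rk T := by omega
  obtain ⟨s, hs⟩ := hA.twist T hξ hr
  have hd := hB.hasProjectiveBundles.dim_proj T hr
  have hdim : (B.proj T).dim = 2 * (j + e) := by omega
  let y : C.A X := (-(s : ℚ)) • ξ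
  let S : C.A (B.proj T) := ∑ l ∈ Finset.range (e + 1),
    C.pull (B.pr T) y ^ l * B.zeta T ^ (e + 1 - 1 - l)
  let x' : C.A (B.proj T) := C.pull (B.pr T) x * S
  have hz := hB.hasProjectiveBundles.zeta_mem T hr
  have hy : C.Deg 1 y := Submodule.smul_mem _ _ (hA.deg hξ)
  have hS : S ∈ C.gr (B.proj T) e := by
    refine Submodule.sum_mem _ fun l hl => ?_
    rw [Finset.mem_range] at hl
    have h1 := C.mul_mem (pow_deg (C.pull_mem (B.pr T) hy) l) (pow_deg hz (e + 1 - 1 - l))
    have e3 : (l : ℤ) + ((e + 1 - 1 - l : ℕ) : ℤ) = e := by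
      rw [Nat.cast_sub (by omega)]; push_cast; ring
    rwa [e3] at h1
  have hx' : C.Deg (j + e : ℕ) x' := by
    have h1 := C.mul_mem (C.pull_mem (B.pr T) hx) hS
    push_cast
    exact h1
  have hpush : ∀ i ≤ e, C.push (B.pr T) (B.zeta T ^ i * S) = y ^ i :=
    fun i hi => push_geom hT hT0 y hi
  have hamp : B.zeta T + (s : ℚ) • C.up (B.pr T) ξ = B.zeta T - C.pull (B.pr T) y := by
    simp only [y]
    rw [map_smul, neg_smul, sub_neg_eq_add]
  have hgeom : (C.pull (B.pr T) y - B.zeta T) * S = C.pull (B.pr T) (y ^ (e + 1)) := by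
    have h1 := (Commute.all (C.pull (B.pr T) y) (B.zeta T)).geom_sum₂_mul (e + 1)
    rw [zeta_trivial hT hT0, sub_zero, ← map_pow] at h1
    rw [mul_comm]
    exact h1
  obtain ⟨q, hq, hdegq⟩ := middle (B := B) (P := P) hAlt hdim hs hx' (by
      intro h
      apply h0
      have h1 : C.push (B.pr T) x' = x := by
        have h2 := hpush 0 (Nat.zero_le _)
        rw [pow_zero, one_mul, pow_zero] at h2
        simp only [x']
        rw [C.proj_left, h2, mul_one]
      rw [← h1, H.cl_push, h, map_zero]) (by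
      have e3 : (B.proj T).dim - 2 * (j + e) + 1 = 1 := by rw [hdim, Nat.sub_self]
      have h1 : (B.zeta T + (s : ℚ) • C.up (B.pr T) ξ) * x' =
          (-((-(s : ℚ)) ^ (e + 1))) • C.pull (B.pr T) (ξ ^ (e + 1) * x) := by
        have h2 : (B.zeta T - C.pull (B.pr T) y) * (C.pull (B.pr T) x * S) =
            -(C.pull (B.pr T) x * ((C.pull (B.pr T) y - B.zeta T) * S)) := by ring
        rw [hamp, h2, hgeom, ← map_mul, neg_smul]
        simp only [y]
        rw [smul_pow, mul_smul_comm, map_smul, mul_comm x]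
      rw [e3, pow_one, h1]
      apply cl_smul
      rw [H.cl_pull, hprim, map_zero])
  have e3 : (B.proj T).dim - 2 * (j + e) = 0 := by rw [hdim, Nat.sub_self]
  rw [e3, pow_zero, one_mul] at hdegq
  have h1 := hasDegree_push (B.pr T) hdegq
  have h2 : C.push (B.pr T) ((-1 : ℚ) ^ (j + e) • (x' * x')) =
      ((e + 1 : ℕ) * (s : ℚ) ^ e : ℚ) • ((-1 : ℚ) ^ j • (ξ ^ e * (x * x))) := by
    have h3 : C.push (B.pr T) (x' * x') = (x * x) * ((e + 1 : ℕ) • y ^ e) := by
      have h4 : x' * x' = C.pull (B.pr T) (x * x) * (S * S) := by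
        simp only [x', map_mul]
        ring
      rw [h4, C.proj_left]
      congr 1
      have h5 : S * S = ∑ l ∈ Finset.range (e + 1),
          C.pull (B.pr T) (y ^ l) * (B.zeta T ^ (e + 1 - 1 - l) * S) := by
        conv_lhs => rw [show S = ∑ l ∈ Finset.range (e + 1),
          C.pull (B.pr T) y ^ l * B.zeta T ^ (e + 1 - 1 - l) from rfl]
        rw [Finset.sum_mul]
        apply Finset.sum_congr rfl
        intro l _
        rw [map_pow, mul_assoc]
      rw [h5, map_sum, Finset.sum_congr rfl (g := fun _ => y ^ e), Finset.sum_const,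
        Finset.card_range]
      intro l hl
      rw [Finset.mem_range] at hl
      rw [C.proj_left, hpush _ (by omega), ← pow_add]
      congr 1
      omega
    rw [map_smul, h3]
    simp only [y]
    rw [smul_pow, ← Nat.cast_smul_eq_nsmul ℚ, mul_smul_comm, mul_smul_comm, smul_smul, smul_smul,
      smul_smul, mul_comm (x * x)]
    congr 1
    rw [pow_add, neg_pow (s : ℚ)]
    have e4 : ((-1 : ℚ) ^ e) * (-1 : ℚ) ^ e = 1 := by rw [← mul_pow]; norm_num
    linear_combination ((-1 : ℚ) ^ j * ((e + 1 : ℕ) : ℚ) * (s : ℚ) ^ e) * e4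
  rw [h2] at h1
  -- the degree of the class on `X`
  have hmem : (-1 : ℚ) ^ j • (ξ ^ e * (x * x)) ∈ C.gr X X.dim := by
    have h3 := Submodule.smul_mem _ ((-1 : ℚ) ^ j)
      (C.mul_mem (pow_deg (hA.deg hξ) e) (C.mul_mem hx hx))
    have e4 : (e : ℤ) + ((j : ℤ) + j) = X.dim := by rw [he]; push_cast; ring
    rwa [e4] at h3
  obtain ⟨p, hp⟩ := exists_hasDegree hmem
  refine ⟨p, ?_, hp⟩
  have h3 := degree_unique (one_ne H X) h1 (HasDegree.smul ((e + 1 : ℕ) * (s : ℚ) ^ e) hp)
  rw [h3] at hq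
  have h4 : (0 : ℚ) ≤ (e + 1 : ℕ) * (s : ℚ) ^ e := by positivity
  by_contra hcon
  push Not at hcon
  exact absurd hq (not_lt.2 (mul_nonpos_of_nonneg_of_nonpos h4 hcon))

/-- **The standard conjecture of Hodge type and divisor classes.** -/
theorem hodge_iff : HodgeType H Amp ↔ HodgeTypeAlternating H Amp := by
  refine ⟨?_, fun h => hodge_of_alternating (B := B) (P := P) h⟩
  intro h X ξ r i m D hξ _ hD hm hX
  exact h X ξ _ m hξ (by omega) (altClass_mem D hD hm)

end Pool.Agent.K1H14.HD
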