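import Pool.Agent.K1H14.HD.Bundle

/-!
# The standard conjecture of Hodge type and alternating polynomials in divisor classes
-/

set_option autoImplicit false

open CategoryTheory AlgebraicGeometry

universe u v w t

namespace Pool.Agent.K1H14.HD

open Pool.Agent.H914 Pool.Agent.H914.VarClass Pool.Agent.H914.VarClass.Obj Pool.Agent.W492.BB
  Pool.Agent.W550.Corr Pool.Agent.TH133 Pool.Agent.TH829.Prime Pool.Agent.TH829.Kim
  Pool.Agent.K1H14.LD Pool.Agent.K1H14.VD

set_option linter.unusedSectionVars false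

variable {k : Type u} [Field k] {𝒱 : VarClass k} {C : TheoryData.{u, v, 0} 𝒱 ℚ}
  [hC : IsChowProj C] {B : BundleData.{u, v, t} C} [hB : IsBundles B] {P : PullData B}
  [hP : IsPull P] {Amp : ∀ X : 𝒱.Obj, C.A X → Prop} [hA : IsAmple P Amp] {X Y : 𝒱.Obj}
  {K : Type w} [Field K] {H : WeilTheoryData.{u, v, w} C K} [hH : IsWeilProj H]

include hC hH

omit hC hH in
lemma one_ne [IsChowProj C] (H : WeilTheoryData.{u, v, w} C K) [hH : IsWeilProj H] (X : 𝒱.Obj) :
    (1 : C.A X) ≠ 0 := by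
  intro h
  have h1 : (1 : H.A X) = 0 := by rw [← map_one H.cl, h, map_zero]
  exact hH.one_ne_zero X h1

lemma cl_of_smul {x : C.A X} {c : ℚ} (hc : c ≠ 0) (h : H.cl (c • x) = 0) : H.cl x = 0 := by
  have h1 := cl_smul (H := H) c⁻¹ h
  rwa [smul_smul, inv_mul_cancel₀ hc, one_smul] at h1

/-- The case of codimension zero. -/
lemma middle_zero (hAlt : HodgeTypeAlternating H Amp) (hdeg : ∀ {X : 𝒱.Obj} {ξ : C.A X},
    Amp X ξ → C.Deg 1 ξ) (hX : X.dim = 0) {ξ x : C.A X} (hξ : Amp X ξ) (hx : C.Deg 0 x) :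
    HodgePositive H ξ 0 x := by
  intro h0 _
  obtain ⟨q, rfl⟩ := hC.gr_zero X x hx
  have hq : q ≠ 0 := by
    rintro rfl
    apply h0
    rw [zero_smul, map_zero]
  have hb : altClass (fun _ : Fin 1 => (0 : C.A X)) 0 = 1 := by
    rw [altClass, vand_eq]
    simp
  have h1 := hAlt X ξ 1 0 0 (fun _ => 0) hξ le_rfl (fun _ => Submodule.zero_mem _) (by simp)
    (by rw [hX])
  rw [hb] at h1
  obtain ⟨r, hr, h2⟩ := h1 (by rw [map_one]; exact hH.one_ne_zero X) (by
    have h3 : ξ = 0 := hC.gr_top X 1 ξ (hdeg hξ) (by rw [hX]; norm_num)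
    rw [h3, mul_one, pow_succ, mul_zero, map_zero])
  refine ⟨(q * q) * r, mul_pos (mul_self_pos.2 hq) hr, ?_⟩
  have h3 := HasDegree.smul (q * q) h2
  have e : (q * q) • ((-1 : ℚ) ^ 0 • (ξ ^ (X.dim - 2 * 0) * ((1 : C.A X) * 1))) =
      (-1 : ℚ) ^ 0 • (ξ ^ (X.dim - 2 * 0) * (q • (1 : C.A X) * q • (1 : C.A X))) := by
    rw [smul_mul_smul_comm, mul_smul_comm, smul_comm]
  rwa [e] at h3

/-- The case of divisors on surfaces. -/
lemma middle_one (hAlt : HodgeTypeAlternating H Amp) (hX : X.dim = 2) {ξ x : C.A X}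
    (hξ : Amp X ξ) (hx : C.Deg 1 x) : HodgePositive H ξ 1 x := by
  have hb : altClass (fun _ : Fin 1 => x) 1 = x := by
    rw [altClass, vand_eq]
    simp
  have h1 := hAlt X ξ 1 1 1 (fun _ => x) hξ le_rfl (fun _ => hx) (by simp) (by rw [hX])
  rwa [hb] at h1

include hB hP hA

/-- The case of codimension at least two in the middle dimension. -/
theorem middle_two (hAlt : HodgeTypeAlternating H Amp) {m : ℕ} (hm : 2 ≤ m) (hX : X.dim = 2 * m)
    {ξ x : C.A X} (hξ : Amp X ξ) (hx : C.Deg m x) : HodgePositive H ξ m x := by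
  intro h0 hprim
  obtain ⟨G, κ, hκ, hlow, hG⟩ := exists_chern (B := B) (by omega : 1 ≤ m) hx
  have hr : 1 ≤ B.rk G := by
    by_contra hcon
    push Not at hcon
    have h1 := hB.hasChernClasses.chern_top G m (by omega)
    rw [hG] at h1
    apply h0
    apply cl_of_smul hκ
    rw [h1, map_zero]
  obtain ⟨s, hs⟩ := hA.twist G hξ hr
  obtain ⟨r, hrk⟩ : ∃ r, B.rk G = r := ⟨_, rfl⟩
  obtain ⟨Y, π, z, hdim, hz, hrel, hamp, hpush⟩ := exists_tower (P := P) G hr hξ hs r
  have hsl : ∀ n, n + 1 < r → seg G n = 0 := fun n hn => seg_lt G hr (by rw [hrk]; exact hn)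
  have hss : seg G (r - 1) = 1 := by rw [← hrk]; exact seg_self G hr
  rw [hrk] at hr hdim
  simp only [hrk] at hrel
  let Δ : C.A Y := (Matrix.vandermonde z).det
  -- the Chern classes of `G` on `Y`
  have hc0 : C.pull π (B.chern G 0) = 1 := by rw [hB.hasChernClasses.chern_zero, map_one]
  have htop : ∀ j, r < j → C.pull π (B.chern G j) = 0 := fun j hj => by
    rw [hB.hasChernClasses.chern_top G j (by rw [hrk]; exact hj), map_zero]
  have h1 : Δ * ∑ i, z i = 0 := by
    have h := det_mul_psum z (c := fun j => C.pull π (B.chern G j)) hc0 hrel htop (n := 1) le_rfl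
      (fun j hj hj' => by omega)
    rw [hlow 1 le_rfl (by omega), map_zero, mul_zero, mul_zero] at h
    simpa only [pow_one] using h
  have h2 : Δ * ∑ i, z i ^ m = (-(m * κ) : ℚ) • (Δ * C.pull π x) := by
    have h := det_mul_psum z (c := fun j => C.pull π (B.chern G j)) hc0 hrel htop (n := m)
      (by omega) (fun j hj hj' => by rw [hlow j hj hj', map_zero])
    change Δ * _ = _ * (Δ * C.pull π (B.chern G m)) at h
    rw [h, hG, map_smul, mul_smul_comm]
    have e : (-(m : C.A Y)) = (-(m : ℚ)) • (1 : C.A Y) := by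
      rw [neg_smul, Nat.cast_smul_eq_nsmul, nsmul_one]
    rw [e, smul_mul_assoc, one_mul, smul_smul, neg_mul]
  have hb : altClass z m = (-(m * κ) : ℚ) • (C.pull π x * Δ) := by
    rw [altClass, vand_eq, mul_comm, mul_comm (C.pull π x)]
    exact h2
  have hmκ : (-(m * κ) : ℚ) ≠ 0 :=
    neg_ne_zero.2 (mul_ne_zero (by exact_mod_cast (by omega : m ≠ 0)) hκ)
  -- the push-forward of the square of the Vandermonde determinant
  have hsq : ∀ y : C.A X, C.push π (C.pull π y * (Δ * Δ)) =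
      ((-1) ^ (r * (r - 1) / 2) * (r.factorial : ℚ)) • y := by
    intro y
    exact square z (C.push π ∘ₗ LinearMap.mulLeft ℚ (C.pull π y)) y (seg G)
      hsl hss (fun α => hpush y α)
  have hfac : ((-1) ^ (r * (r - 1) / 2) * (r.factorial : ℚ)) ≠ 0 :=
    mul_ne_zero (pow_ne_zero _ (by norm_num)) (by exact_mod_cast Nat.factorial_ne_zero r)
  -- the dimension
  have heven : 2 * (r * (r - 1) / 2) = r * (r - 1) :=
    Nat.mul_div_cancel' (Nat.even_mul_pred_self r).two_dvd
  have hYdim : Y.dim = 2 * (m + r * (r - 1) / 2) := by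
    rw [hdim, hX, mul_add, heven]
  obtain ⟨q, hq, hdegq⟩ := hAlt Y _ r m (m + r * (r - 1) / 2) z hamp hr hz rfl hYdim (by
      intro h
      apply h0
      apply cl_of_smul (mul_ne_zero hmκ hfac)
      have h3 : C.push π (altClass z m * Δ) =
          (-(m * κ) * ((-1) ^ (r * (r - 1) / 2) * (r.factorial : ℚ))) • x := by
        rw [hb, smul_mul_assoc, map_smul, mul_assoc, hsq, smul_smul]
      rw [← h3, H.cl_push, map_mul, h, zero_mul, map_zero]) (by
      have e1 : Y.dim - 2 * (m + r * (r - 1) / 2) + 1 = 1 := by rw [hYdim, Nat.sub_self]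
      have e2 : X.dim - 2 * m + 1 = 1 := by rw [hX, Nat.sub_self]
      rw [e2, pow_one] at hprim
      rw [e1, pow_one, hb]
      have h3 : ((1 + r * s : ℚ) • C.pull π ξ + ∑ i, z i) *
          (-(m * κ) : ℚ) • (C.pull π x * Δ) =
          ((1 + r * s) * -(m * κ) : ℚ) • (C.pull π (ξ * x) * Δ) := by
        have h4 : (∑ i, z i) * (C.pull π x * Δ) = C.pull π x * (Δ * ∑ i, z i) := by ring
        rw [add_mul, mul_smul_comm _ (∑ i, z i), h4, h1, mul_zero, smul_zero, add_zero,
          smul_mul_smul_comm, ← mul_assoc, ← map_mul]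
      rw [h3]
      apply cl_smul
      rw [map_mul, H.cl_pull, hprim, map_zero, zero_mul])
  have e1 : Y.dim - 2 * (m + r * (r - 1) / 2) = 0 := by rw [hYdim, Nat.sub_self]
  have e2 : X.dim - 2 * m = 0 := by rw [hX, Nat.sub_self]
  rw [e1, pow_zero, one_mul] at hdegq
  rw [e2, pow_zero, one_mul]
  have h3 := hasDegree_push π hdegq
  have h4 : C.push π ((-1 : ℚ) ^ (m + r * (r - 1) / 2) • (altClass z m * altClass z m)) =
      ((m * κ) * (m * κ) * (r.factorial : ℚ)) • ((-1 : ℚ) ^ m • (x * x)) := by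
    have h5 : altClass z m * altClass z m =
        ((m * κ) * (m * κ) : ℚ) • (C.pull π (x * x) * (Δ * Δ)) := by
      rw [hb, smul_mul_smul_comm, neg_mul_neg, map_mul]
      congr 1
      ring
    rw [h5, map_smul, map_smul, hsq, smul_smul, smul_smul, smul_smul]
    congr 1
    have e : ((-1 : ℚ) ^ (r * (r - 1) / 2)) * (-1 : ℚ) ^ (r * (r - 1) / 2) = 1 := by
      rw [← mul_pow]; norm_num
    rw [pow_add]
    linear_combination ((-1 : ℚ) ^ m * (m * κ * (m * κ)) * (r.factorial : ℚ)) * e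
  rw [h4] at h3
  have hpos : (0 : ℚ) < (m * κ) * (m * κ) * (r.factorial : ℚ) := by
    apply mul_pos
    · apply mul_self_pos.2
      exact mul_ne_zero (by exact_mod_cast (by omega : m ≠ 0)) hκ
    · exact_mod_cast Nat.factorial_pos r
  have h5 := HasDegree.smul ((m * κ) * (m * κ) * (r.factorial : ℚ))⁻¹ h3
  rw [smul_smul, inv_mul_cancel₀ hpos.ne', one_smul] at h5
  exact ⟨_, mul_pos (inv_pos.2 hpos) hq, h5⟩

/-- The middle dimension. -/
theorem middle (hAlt : HodgeTypeAlternating H Amp) {m : ℕ} (hX : X.dim = 2 * m)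
    {ξ x : C.A X} (hξ : Amp X ξ) (hx : C.Deg m x) : HodgePositive H ξ m x := by
  rcases Nat.lt_or_ge m 2 with hm | hm
  · interval_cases m
    · exact middle_zero hAlt (fun h => hA.deg h) hX hξ (by exact_mod_cast hx)
    · exact middle_one hAlt hX hξ (by exact_mod_cast hx)
  · exact middle_two (B := B) (P := P) hAlt hm hX hξ hx

end Pool.Agent.K1H14.HD
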