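import Pool.Agent.K1H14.HD.Defs
import Pool.Agent.K1H14.HD.Alg
import Pool.Agent.K1H14.VD.Gen

/-!
# The fibre powers of projective bundles
-/

set_option autoImplicit false

open CategoryTheory AlgebraicGeometry

universe u v w t

namespace Pool.Agent.K1H14.HD

open Pool.Agent.H914 Pool.Agent.H914.VarClass Pool.Agent.H914.VarClass.Obj Pool.Agent.W492.BB
  Pool.Agent.W550.Corr Pool.Agent.TH133 Pool.Agent.TH829.Prime Pool.Agent.TH829.Kim
  Pool.Agent.K1H14.LD Pool.Agent.K1H14.VD

set_option linter.unusedSectionVars false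

variable {k : Type u} [Field k] {𝒱 : VarClass k} {C : TheoryData.{u, v, 0} 𝒱 ℚ}
  [hC : IsChowProj C] {B : BundleData.{u, v, t} C} [hB : IsBundles B] {P : PullData B}
  [hP : IsPull P] {Amp : ∀ X : 𝒱.Obj, C.A X → Prop} [hA : IsAmple P Amp] {X Y : 𝒱.Obj}

include hC hB

/-- The classes `p_* ζ^n`. -/
noncomputable def seg (E : B.Bun X) (n : ℕ) : C.A X := C.push (B.pr E) (B.zeta E ^ n)

lemma seg_lt (E : B.Bun X) (hr : 1 ≤ B.rk E) {n : ℕ} (hn : n + 1 < B.rk E) : seg E n = 0 := by
  have h3 := C.push_mem (B.pr E) (pow_deg (hB.hasProjectiveBundles.zeta_mem E hr) n)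
  have hdim := hB.hasProjectiveBundles.dim_proj E hr
  have e : (n : ℤ) + 1 * ((X.dim : ℤ) - (B.proj E).dim) = (n : ℤ) - (B.rk E - 1) := by
    have : ((B.proj E).dim : ℤ) + 1 = X.dim + B.rk E := by exact_mod_cast hdim
    linarith
  rw [e, C.gr_neg _ _ (by have : (n : ℤ) + 1 < B.rk E := by exact_mod_cast hn
                          linarith), Submodule.mem_bot] at h3
  exact h3

lemma seg_self (E : B.Bun X) (hr : 1 ≤ B.rk E) : seg E (B.rk E - 1) = 1 :=
  hB.hasProjectiveBundles.push_zeta E hr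

/-- The recursion for the classes `p_* ζ^n`. -/
lemma seg_rec (E : B.Bun X) (hr : 1 ≤ B.rk E) (n : ℕ) : seg E (n + B.rk E) =
    - ∑ j ∈ Finset.range (B.rk E), B.chern E (j + 1) * seg E (n + (B.rk E - (j + 1))) := by
  have h1 := hB.hasProjectiveBundles.relation E hr
  rw [Finset.sum_range_succ', hB.hasChernClasses.chern_zero, Nat.sub_zero, TheoryData.up, map_one,
    TheoryData.mul, one_mul, add_comm] at h1
  rw [seg, pow_add, eq_neg_of_add_eq_zero_left h1, mul_neg, map_neg, Finset.mul_sum, map_sum]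
  congr 1
  apply Finset.sum_congr rfl
  intro j _
  rw [TheoryData.mul, ← mul_assoc, ch_comm C (B.zeta E ^ n), mul_assoc, ← pow_add, C.proj_left, seg]

include hP

/-- Base change. -/
lemma seg_pull (f : Y ⟶ X) (E : B.Bun X) (hr : 1 ≤ B.rk E) (n : ℕ) :
    seg (P.pull f E) n = C.pull f (seg E n) := by
  have hr' : 1 ≤ B.rk (P.pull f E) := by rwa [hP.rk_pull]
  induction n using Nat.strong_induction_on with
  | _ n ih =>
    rcases lt_trichotomy (n + 1) (B.rk E) with h | h | h
    · rw [seg_lt E hr h, seg_lt _ hr' (by rwa [hP.rk_pull]), map_zero]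
    · have e1 : n = B.rk E - 1 := by omega
      have e2 : n = B.rk (P.pull f E) - 1 := by rw [hP.rk_pull]; exact e1
      have h1 : seg E n = 1 := by rw [e1]; exact seg_self E hr
      have h2 : seg (P.pull f E) n = 1 := by
        conv_lhs => rw [e2]
        exact seg_self _ hr'
      rw [h1, h2, map_one]
    · obtain ⟨l, rfl⟩ : ∃ l, n = l + B.rk E := ⟨n - B.rk E, by omega⟩
      have h1 := seg_rec (P.pull f E) hr' l
      rw [hP.rk_pull] at h1
      rw [h1, seg_rec E hr l, map_neg, map_sum]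
      congr 1
      apply Finset.sum_congr rfl
      intro j hj
      rw [Finset.mem_range] at hj
      rw [ih _ (by omega), hP.chern_pull, map_mul]

include hA

/-- The fibre powers of `ℙ(E)` over `X`. -/
theorem exists_tower (E : B.Bun X) (hr : 1 ≤ B.rk E) {ξ : C.A X} (hξ : Amp X ξ) {s : ℕ}
    (hs : Amp (B.proj E) (B.zeta E + (s : ℚ) • C.up (B.pr E) ξ)) (n : ℕ) :
    ∃ (Y : 𝒱.Obj) (π : Y ⟶ X) (z : Fin n → C.A Y), Y.dim = X.dim + n * (B.rk E - 1) ∧
      (∀ i, C.Deg 1 (z i)) ∧
      (∀ i, ∑ j ∈ Finset.range (B.rk E + 1), C.pull π (B.chern E j) * z i ^ (B.rk E - j) = 0) ∧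
      Amp Y ((1 + n * s : ℚ) • C.pull π ξ + ∑ i, z i) ∧
      ∀ (a : C.A X) (α : Fin n → ℕ), C.push π (C.pull π a * ∏ i, z i ^ α i) =
        a * ∏ i, seg E (α i) := by
  induction n with
  | zero =>
    refine ⟨X, 𝟙 X, fun i => i.elim0, by simp, fun i => i.elim0, fun i => i.elim0, ?_, ?_⟩
    · rw [C.pull_id]
      simpa using hξ
    · intro a α
      rw [C.pull_id, Finset.univ_eq_empty, Finset.prod_empty, Finset.prod_empty, C.push_id]
  | succ n ih =>
    obtain ⟨Y, π, z, hdim, hz, hrel, hamp, hpush⟩ := ih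
    have hr' : 1 ≤ B.rk (P.pull π E) := by rwa [hP.rk_pull]
    have hd := hB.hasProjectiveBundles.dim_proj (P.pull π E) hr'
    rw [hP.rk_pull] at hd
    refine ⟨B.proj (P.pull π E), B.pr (P.pull π E) ≫ π,
      Fin.cons (B.zeta (P.pull π E)) (fun i => C.pull (B.pr (P.pull π E)) (z i)), ?_, ?_, ?_, ?_,
      ?_⟩
    · rw [hdim] at hd
      have e : (n + 1) * (B.rk E - 1) = n * (B.rk E - 1) + (B.rk E - 1) := by ring
      omega
    · intro i
      refine Fin.cases ?_ (fun i => ?_) i
      · exact hB.hasProjectiveBundles.zeta_mem _ hr'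
      · exact C.pull_mem _ (hz i)
    · intro i
      refine Fin.cases ?_ (fun i => ?_) i
      · have h1 := hB.hasProjectiveBundles.relation (P.pull π E) hr'
        rw [hP.rk_pull] at h1
        rw [← h1]
        apply Finset.sum_congr rfl
        intro j _
        rw [Fin.cons_zero, hP.chern_pull, C.pull_comp]
      · have h1 := congrArg (C.pull (B.pr (P.pull π E))) (hrel i)
        rw [map_zero, map_sum] at h1
        rw [← h1]
        apply Finset.sum_congr rfl
        intro j _
        rw [Fin.cons_succ, map_mul, map_pow, C.pull_comp]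
    · have h1 := hA.fibre π E hr hamp hs
      have e : (((1 : ℚ) + ((n + 1 : ℕ) : ℚ) * s) • C.pull (B.pr (P.pull π E) ≫ π) ξ +
          ∑ i, (Fin.cons (B.zeta (P.pull π E)) (fun i => C.pull (B.pr (P.pull π E)) (z i)) :
            Fin (n + 1) → C.A (B.proj (P.pull π E))) i) =
          C.up (B.pr (P.pull π E)) (((1 : ℚ) + n * s) • C.pull π ξ + ∑ i, z i) +
            C.up (P.map π E) (B.zeta E + (s : ℚ) • C.up (B.pr E) ξ) := by
        rw [Fin.sum_univ_succ, Fin.cons_zero, TheoryData.up, TheoryData.up, map_add, map_add,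
          map_smul, map_smul, map_sum, ← C.pull_comp, TheoryData.up, ← C.pull_comp, hP.map_pr]
        have h2 : C.pull (P.map π E) (B.zeta E) = B.zeta (P.pull π E) := hP.zeta_pull π E
        rw [h2]
        simp only [Fin.cons_succ]
        have e3 : ((1 : ℚ) + ((n + 1 : ℕ) : ℚ) * s) = (1 + n * s) + s := by push_cast; ring
        rw [e3, add_smul]
        abel
      rw [e]
      exact h1
    · intro a α
      rw [Fin.prod_univ_succ, Fin.prod_univ_succ, Fin.cons_zero]
      simp only [Fin.cons_succ]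
      have e1 : C.pull (B.pr (P.pull π E) ≫ π) a * (B.zeta (P.pull π E) ^ α 0 *
          ∏ i : Fin n, C.pull (B.pr (P.pull π E)) (z i) ^ α i.succ) =
          C.pull (B.pr (P.pull π E)) (C.pull π a * ∏ i, z i ^ α i.succ) *
            B.zeta (P.pull π E) ^ α 0 := by
        rw [map_mul, map_prod, C.pull_comp]
        simp only [map_pow]
        ring
      have e2 : C.push (B.pr (P.pull π E)) (B.zeta (P.pull π E) ^ α 0) =
          C.pull π (seg E (α 0)) := seg_pull π E hr (α 0)
      rw [C.push_comp, e1, C.proj_left, e2]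
      have e3 : C.pull π a * (∏ i : Fin n, z i ^ α i.succ) * C.pull π (seg E (α 0)) =
          C.pull π (a * seg E (α 0)) * ∏ i : Fin n, z i ^ α i.succ := by
        rw [map_mul]; ring
      rw [e3, hpush]
      ring

end Pool.Agent.K1H14.HD
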