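import Pool.Agent.K1H14.HD.Tower

/-!
# Alternating classes on the fibre powers of projective bundles
-/

set_option autoImplicit false

open CategoryTheory AlgebraicGeometry

universe u v w t

namespace Pool.Agent.K1H14.HD

open Pool.Agent.H914 Pool.Agent.H914.VarClass Pool.Agent.H914.VarClass.Obj Pool.Agent.W492.BB
  Pool.Agent.W550.Corr Pool.Agent.TH133 Pool.Agent.TH829.Prime Pool.Agent.TH829.Kim
  Pool.Agent.K1H14.LD Pool.Agent.K1H14.VD

set_option linter.unusedSectionVars false

variable {k : Type u} [Field k] {𝒱 : VarClass k} {C : TheoryData.{u, v, 0} 𝒱 ℚ}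
  [hC : IsChowProj C] {X Y : 𝒱.Obj}

include hC

lemma vand_eq {r : ℕ} (D : Fin r → C.A X) : vand D = (Matrix.vandermonde D).det := by
  induction r with
  | zero => rw [Matrix.det_isEmpty]; rfl
  | succ r ih =>
    rw [Matrix.det_vandermonde, Fin.prod_univ_succ, Fin.prod_Ioi_zero, vand, ih,
      Matrix.det_vandermonde, List.prod_ofFn]
    congr 1
    apply Finset.prod_congr rfl
    intro i _
    rw [Fin.prod_Ioi_succ]

lemma prod_one_mem {r : ℕ} (D : Fin r → C.A X) (hD : ∀ k, C.Deg 1 (D k)) :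
    ∏ k, D k ∈ C.gr X r := by
  induction r with
  | zero =>
    rw [Finset.univ_eq_empty, Finset.prod_empty]
    exact C.one_mem X
  | succ r ih =>
    rw [Fin.prod_univ_succ]
    have h := C.mul_mem (hD 0) (ih (fun k => D k.succ) fun k => hD k.succ)
    have e : (1 : ℤ) + r = (r + 1 : ℕ) := by push_cast; ring
    rwa [e] at h

lemma vand_mem {r : ℕ} (D : Fin r → C.A X) (hD : ∀ k, C.Deg 1 (D k)) :
    vand D ∈ C.gr X (r * (r - 1) / 2 : ℕ) := by
  induction r with
  | zero =>
    have h := C.one_mem X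
    simpa [vand] using h
  | succ r ih =>
    rw [vand, List.prod_ofFn]
    have h := C.mul_mem (prod_one_mem (fun k : Fin r => D k.succ - D 0)
      (fun k => Submodule.sub_mem _ (hD _) (hD _))) (ih (fun k => D k.succ) fun k => hD k.succ)
    have e : ((r : ℕ) : ℤ) + ((r * (r - 1) / 2 : ℕ) : ℤ) = (((r + 1) * (r + 1 - 1) / 2 : ℕ) : ℤ) := by
      rw [Nat.triangle_succ]
      push_cast
      ring
    rwa [e] at h

lemma altClass_mem {r i m : ℕ} (D : Fin r → C.A X) (hD : ∀ k, C.Deg 1 (D k))
    (hm : m = i + r * (r - 1) / 2) : C.Deg m (altClass D i) := by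
  have h1 : ∑ k, D k ^ i ∈ C.gr X i := Submodule.sum_mem _ fun k _ => pow_deg (hD k) i
  have h := C.mul_mem h1 (vand_mem D hD)
  rw [hm]
  push_cast at h ⊢
  exact h

/-- The degree of a zero-cycle is unique. -/
lemma degree_unique (h1 : (1 : C.A X) ≠ 0) {x : C.A X} {q r : ℚ} (hq : HasDegree C x q)
    (hr : HasDegree C x r) : q = r := by
  have h2 := (hq X).1
  rw [(hr X).1] at h2
  by_contra hne
  have h5 : (r - q) • (1 : C.A X) = 0 := by rw [sub_smul, h2, sub_self]
  rcases smul_eq_zero.1 h5 with h6 | h6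
  · exact hne (sub_eq_zero.1 h6).symm
  · exact h1 h6

end Pool.Agent.K1H14.HD
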